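import Mathlib
import Pool.Agent.W2helper8.ZQ.Stm

/-!
Project ZQ (helper8), piece DDL: the truncated constants converge.
-/

set_option autoImplicit false

namespace Pool.Agent.W2helper46.ZQ

open Finset Filter Topology MeasureTheory Complex
open Pool.Agent.H306R2 (dv)
open Pool.Agent.W2helper8.ZQ

noncomputable section

lemma sq_le' (u v : ℝ) {η : ℝ} (h : 0 < η) :
    u ^ 2 ≤ (1 + η) * v ^ 2 + (1 + 1 / η) * (u - v) ^ 2 := by
  have h1 : 0 ≤ (η * v - (u - v)) ^ 2 / η := by positivity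
  have h2 : (η * v - (u - v)) ^ 2 / η = η * v ^ 2 - 2 * v * (u - v) + (1 / η) * (u - v) ^ 2 := by
    field_simp
    ring
  nlinarith

/-- integrals with the weight `w |ζ(1/2+it)|²` -/
def IW (w : ℝ → ℝ) (T : ℝ) (h : ℝ → ℝ) : ℝ := ∫ t in (T / 2)..(3 * T), w t * Z2 t * h t

lemma int_w {w h : ℝ → ℝ} {T : ℝ} (hw : Continuous w)
    (hh : ContinuousOn h (Set.uIcc (T / 2) (3 * T))) :
    IntervalIntegrable (fun t => w t * Z2 t * h t) volume (T / 2) (3 * T) := by
  refine ContinuousOn.intervalIntegrable ?_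
  exact ((hw.mul Z2_cont).continuousOn).mul hh

lemma IW_mono {w h h' : ℝ → ℝ} {T : ℝ} (hT : 0 < T) (hw : Continuous w) (hw0 : ∀ t, 0 ≤ w t)
    (hh : ContinuousOn h (Set.uIcc (T / 2) (3 * T)))
    (hh' : ContinuousOn h' (Set.uIcc (T / 2) (3 * T))) (hle : ∀ t, h t ≤ h' t) :
    IW w T h ≤ IW w T h' := by
  unfold IW
  refine intervalIntegral.integral_mono_on (by linarith) (int_w hw hh) (int_w hw hh') ?_
  intro t _
  exact mul_le_mul_of_nonneg_left (hle t) (mul_nonneg (hw0 t) (Z2_nonneg t))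

lemma IW_nonneg {w h : ℝ → ℝ} {T : ℝ} (hT : 0 < T) (hw0 : ∀ t, 0 ≤ w t) (hh : ∀ t, 0 ≤ h t) :
    0 ≤ IW w T h := by
  unfold IW
  refine intervalIntegral.integral_nonneg (by linarith) ?_
  intro t _
  exact mul_nonneg (mul_nonneg (hw0 t) (Z2_nonneg t)) (hh t)

lemma IW_lin {w h h' : ℝ → ℝ} {T : ℝ} (hw : Continuous w)
    (hh : ContinuousOn h (Set.uIcc (T / 2) (3 * T)))
    (hh' : ContinuousOn h' (Set.uIcc (T / 2) (3 * T))) (c c' : ℝ) :
    IW w T (fun t => c * h t + c' * h' t) = c * IW w T h + c' * IW w T h' := by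
  unfold IW
  rw [← intervalIntegral.integral_const_mul, ← intervalIntegral.integral_const_mul,
    ← intervalIntegral.integral_add ((int_w hw hh).const_mul c) ((int_w hw hh').const_mul c')]
  refine intervalIntegral.integral_congr fun t _ => ?_
  ring

lemma IW_split {w u v : ℝ → ℝ} {T : ℝ} (hT : 0 < T) (hw : Continuous w) (hw0 : ∀ t, 0 ≤ w t)
    (hu : ContinuousOn u (Set.uIcc (T / 2) (3 * T)))
    (hv : ContinuousOn v (Set.uIcc (T / 2) (3 * T))) {η : ℝ} (hη : 0 < η) :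
    IW w T (fun t => u t ^ 2) ≤ (1 + η) * IW w T (fun t => v t ^ 2) +
      (1 + 1 / η) * IW w T (fun t => (u t - v t) ^ 2) := by
  have h := IW_lin (h := fun t => v t ^ 2) (h' := fun t => (u t - v t) ^ 2) hw (hv.pow 2)
    ((hu.sub hv).pow 2) (1 + η) (1 + 1 / η)
  rw [← h]
  refine IW_mono hT hw hw0 (hu.pow 2) ?_ fun t => sq_le' _ _ hη
  exact (continuousOn_const.mul (hv.pow 2)).add (continuousOn_const.mul ((hu.sub hv).pow 2))

/-- `|ζ(1+iat)|^b` -/
def fz (b a t : ℝ) : ℝ := ‖riemannZeta (1 + a * t * I)‖ ^ b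

lemma fz_cont (b : ℝ) {a : ℝ} (ha : 0 < a) {T : ℝ} (hT : 0 < T) :
    ContinuousOn (fz b a) (Set.uIcc (T / 2) (3 * T)) := by
  intro t ht
  rw [Set.uIcc_of_le (by linarith)] at ht
  exact (zpow_contAt b ha (by linarith [ht.1])).continuousWithinAt

/-- `|AA|` -/
def gz (b a : ℝ) (N : ℕ) (t : ℝ) : ℝ := ‖AA b a N t‖

lemma gz_cont (b a : ℝ) (N : ℕ) (T : ℝ) : ContinuousOn (gz b a N) (Set.uIcc (T / 2) (3 * T)) :=
  (AA_cont b a N).norm.continuousOn

lemma TlogT_pos {T : ℝ} (hT : 2 ≤ T) : 0 < T * Real.log T :=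
  mul_pos (by linarith) (Real.log_pos (by linarith))

theorem p_ddl (h1 : S_TRAP) (h2 : S_CORE) (h3 : S_FIXA) : S_DDL := by
  intro b a ha
  obtain ⟨C, hC, hw⟩ := h1 (1 / 4) (by norm_num) le_rfl
  -- the key comparison
  have key : ∀ ε : ℝ, 0 < ε → ∃ N₀ : ℕ, ∀ N M : ℕ, N₀ ≤ N → N₀ ≤ M → ∀ η : ℝ, 0 < η →
      (1 + 1 / 4) * DD b a N ≤ (1 + η) * ((1 + 1 / 4) * DD b a M) + (1 + 1 / η) * (4 * ε) := by
    intro ε hε
    obtain ⟨N₀, hN₀⟩ := h2 b a C ha hC ε hε
    refine ⟨N₀, fun N M hN hM η hη => ?_⟩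
    refine le_of_forall_pos_le_add fun ε' hε' => ?_
    have hε2 : 0 < ε' / (2 + η) := by positivity
    obtain ⟨T, hT1, hT2, hT3, hT4, hT5⟩ := ((eventually_ge_atTop (2 : ℝ)).and
      ((hN₀ N hN).and ((hN₀ M hM).and ((h3 b a C N ha hC _ hε2).and
        (h3 b a C M ha hC _ hε2))))).exists
    obtain ⟨⟨w, hw1, -⟩, -⟩ := hw T (by linarith)
    have hT0 : 0 < T := by linarith
    have hS := TlogT_pos hT1
    have e1 : IW w T (fun t => (fz b a t - gz b a N t) ^ 2) ≤ ε * (T * Real.log T) :=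
      hT2 _ w hw1
    have e2 : IW w T (fun t => (fz b a t - gz b a M t) ^ 2) ≤ ε * (T * Real.log T) :=
      hT3 _ w hw1
    have e3 : |IW w T (fun t => gz b a N t ^ 2) - (1 + 1 / 4) * DD b a N * (T * Real.log T)| ≤
        ε' / (2 + η) * (T * Real.log T) := hT4 _ w hw1
    have e4 : |IW w T (fun t => gz b a M t ^ 2) - (1 + 1 / 4) * DD b a M * (T * Real.log T)| ≤
        ε' / (2 + η) * (T * Real.log T) := hT5 _ w hw1
    have hf := fz_cont b ha hT0
    have hgN := gz_cont b a N T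
    have hgM := gz_cont b a M T
    have e5 := IW_split hT0 hw1.cont hw1.nn hgN hgM hη
    have e6 : IW w T (fun t => (gz b a N t - gz b a M t) ^ 2) ≤
        2 * IW w T (fun t => (fz b a t - gz b a N t) ^ 2) +
          2 * IW w T (fun t => (fz b a t - gz b a M t) ^ 2) := by
      have h := IW_lin (h := fun t => (fz b a t - gz b a N t) ^ 2)
        (h' := fun t => (fz b a t - gz b a M t) ^ 2) hw1.cont ((hf.sub hgN).pow 2)
        ((hf.sub hgM).pow 2) 2 2
      rw [← h]
      refine IW_mono hT0 hw1.cont hw1.nn ((hgN.sub hgM).pow 2) ?_ fun t => ?_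
      · exact (continuousOn_const.mul ((hf.sub hgN).pow 2)).add
          (continuousOn_const.mul ((hf.sub hgM).pow 2))
      · nlinarith [sq_nonneg ((fz b a t - gz b a N t) + (fz b a t - gz b a M t))]
    have e3' := (abs_le.mp e3).1
    have e4' := (abs_le.mp e4).2
    have e7 : IW w T (fun t => (gz b a N t - gz b a M t) ^ 2) ≤ 4 * ε * (T * Real.log T) := by
      linarith
    have h1η : 0 < 1 + 1 / η := by positivity
    have e8 : (1 + 1 / η) * IW w T (fun t => (gz b a N t - gz b a M t) ^ 2) ≤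
        (1 + 1 / η) * (4 * ε * (T * Real.log T)) := mul_le_mul_of_nonneg_left e7 h1η.le
    have e9 : (1 + η) * IW w T (fun t => gz b a M t ^ 2) ≤
        (1 + η) * ((1 + 1 / 4) * DD b a M * (T * Real.log T) + ε' / (2 + η) * (T * Real.log T)) :=
      mul_le_mul_of_nonneg_left (by linarith) (by linarith)
    have e10 : ((1 + 1 / 4) * DD b a N) * (T * Real.log T) ≤
        ((1 + η) * ((1 + 1 / 4) * DD b a M) + (1 + 1 / η) * (4 * ε) + ε') * (T * Real.log T) := by
      have e11 : ε' / (2 + η) * (T * Real.log T) + (1 + η) * (ε' / (2 + η) * (T * Real.log T)) =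
          ε' * (T * Real.log T) := by
        field_simp
        ring
      nlinarith
    exact le_of_mul_le_mul_right e10 hS
  have hnn : ∀ M : ℕ, 0 ≤ DD b a M := by
    intro M
    by_contra hcon
    push Not at hcon
    obtain ⟨T, hT1, hT2⟩ := ((eventually_ge_atTop (2 : ℝ)).and
      (h3 b a C M ha hC _ (show 0 < -DD b a M by linarith))).exists
    obtain ⟨⟨w, hw1, -⟩, -⟩ := hw T (by linarith)
    have hS := TlogT_pos hT1
    have e3 : |IW w T (fun t => gz b a M t ^ 2) - (1 + 1 / 4) * DD b a M * (T * Real.log T)| ≤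
        -DD b a M * (T * Real.log T) := hT2 _ w hw1
    have e4 : 0 ≤ IW w T (fun t => gz b a M t ^ 2) :=
      IW_nonneg (by linarith) hw1.nn fun t => sq_nonneg _
    have e5 := (abs_le.mp e3).2
    nlinarith
  obtain ⟨N₁, hN₁⟩ := key 1 one_pos
  set B : ℝ := 2 * DD b a N₁ + 8 with hB
  have hB0 : 0 < B := by have := hnn N₁; positivity
  have hbd : ∀ N : ℕ, N₁ ≤ N → DD b a N ≤ B := by
    intro N hN
    have := hN₁ N N₁ hN le_rfl 1 one_pos
    have h5 := hnn N₁
    rw [hB]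
    norm_num at this
    linarith
  have hcau : CauchySeq (fun N => DD b a N) := by
    rw [Metric.cauchySeq_iff]
    intro δ hδ
    set η : ℝ := δ / (4 * B) with hη
    have hη0 : 0 < η := by positivity
    have h1η : 0 < 1 + 1 / η := by positivity
    set ε : ℝ := δ / (16 * (1 + 1 / η)) with hε
    have hε0 : 0 < ε := by positivity
    obtain ⟨N₂, hN₂⟩ := key ε hε0
    have hηB : η * B = δ / 4 := by rw [hη]; field_simp
    have hε4 : (1 + 1 / η) * (4 * ε) = δ / 4 := by rw [hε]; field_simp; norm_num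
    have hone : ∀ N M : ℕ, max N₁ N₂ ≤ N → max N₁ N₂ ≤ M → DD b a N - DD b a M < δ := by
      intro N M hN hM
      have h5 := hN₂ N M (le_trans (le_max_right _ _) hN) (le_trans (le_max_right _ _) hM) η hη0
      have h6 := hbd M (le_trans (le_max_left _ _) hM)
      have h7 : η * DD b a M ≤ δ / 4 := by
        rw [← hηB]; exact mul_le_mul_of_nonneg_left h6 hη0.le
      rw [hε4] at h5
      nlinarith
    refine ⟨max N₁ N₂, fun N hN M hM => ?_⟩
    rw [Real.dist_eq, abs_lt]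
    have h5 := hone N M hN hM
    have h6 := hone M N hM hN
    constructor <;> linarith
  obtain ⟨D, hD⟩ := cauchySeq_tendsto_of_complete hcau
  exact ⟨D, ge_of_tendsto' hD hnn, hD⟩

end

end Pool.Agent.W2helper46.ZQ
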