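import Mathlib
import Pool.Agent.W2helper46.ZQ.DDL

/-!
Project ZQ (helper8), piece LIM: the limit for every real exponent.
-/

set_option autoImplicit false

namespace Pool.Agent.W2helper46.ZQ

open Finset Filter Topology MeasureTheory Complex
open Pool.Agent.H306R2 (dv)
open Pool.Agent.W2helper8.ZQ

noncomputable section

lemma lim_key (h2 : S_CORE) (h3 : S_FIXA) {b a D C κ : ℝ} (ha : 0 < a) (hD0 : 0 ≤ D)
    (hD : Tendsto (fun N => DD b a N) atTop (𝓝 D)) (hC : 0 < C) (hκ : 0 ≤ κ) {δ : ℝ} (hδ : 0 < δ) :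
    ∀ᶠ T : ℝ in atTop, ∀ w : ℝ → ℝ, Wt C κ T w →
      |IW w T (fun t => fz b a t ^ 2) - κ * D * (T * Real.log T)| ≤ δ * (T * Real.log T) := by
  have hP : 0 < κ * D + δ := by positivity
  set η : ℝ := min 1 (δ / (4 * (κ * D + δ))) with hη
  have hη0 : 0 < η := lt_min one_pos (by positivity)
  have hη1 : η ≤ 1 := min_le_left _ _
  have hη2 : η * (κ * D + δ) ≤ δ / 4 := by
    calc η * (κ * D + δ) ≤ δ / (4 * (κ * D + δ)) * (κ * D + δ) :=
          mul_le_mul_of_nonneg_right (min_le_right _ _) hP.le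
      _ = δ / 4 := by field_simp
  have h1η : 0 < 1 + 1 / η := by positivity
  set ε : ℝ := δ / (4 * (1 + 1 / η)) with hε
  have hε0 : 0 < ε := by positivity
  have hε4 : (1 + 1 / η) * ε = δ / 4 := by rw [hε]; field_simp
  obtain ⟨N₀, hN₀⟩ := h2 b a C ha hC ε hε0
  have hε2 : 0 < δ / (16 * (κ + 1)) := by positivity
  obtain ⟨N, hN1, hN2⟩ := ((eventually_ge_atTop N₀).and
    (Metric.tendsto_nhds.1 hD _ hε2)).exists
  rw [Real.dist_eq] at hN2
  have hκ2 : κ * |DD b a N - D| ≤ δ / 16 := by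
    calc κ * |DD b a N - D| ≤ (κ + 1) * (δ / (16 * (κ + 1))) := by
          gcongr
          linarith
      _ = δ / 16 := by field_simp
  filter_upwards [eventually_ge_atTop (2 : ℝ), hN₀ N hN1,
    h3 b a C N ha hC (δ / 16) (by positivity)] with T hT hT1 hT2 w hw
  have hT0 : 0 < T := by linarith
  have hS := TlogT_pos hT
  set S := T * Real.log T with hSdef
  have e1 : IW w T (fun t => (fz b a t - gz b a N t) ^ 2) ≤ ε * S := hT1 _ w hw
  have e3 : |IW w T (fun t => gz b a N t ^ 2) - κ * DD b a N * S| ≤ δ / 16 * S := hT2 _ w hw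
  have hf := fz_cont b ha hT0
  have hg := gz_cont b a N T
  have e4 := IW_split hT0 hw.cont hw.nn hf hg hη0
  have e5 := IW_split hT0 hw.cont hw.nn hg hf hη0
  have e6 : IW w T (fun t => (gz b a N t - fz b a t) ^ 2) =
      IW w T (fun t => (fz b a t - gz b a N t) ^ 2) := by
    congr 1
    funext t
    ring
  rw [e6] at e5
  set F := IW w T (fun t => fz b a t ^ 2)
  set G := IW w T (fun t => gz b a N t ^ 2)
  set E := IW w T (fun t => (fz b a t - gz b a N t) ^ 2)
  have hGD : |G - κ * D * S| ≤ δ / 8 * S := by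
    have h5 : G - κ * D * S = (G - κ * DD b a N * S) + κ * (DD b a N - D) * S := by ring
    rw [h5]
    refine (abs_add_le _ _).trans ?_
    have h6 : |κ * (DD b a N - D) * S| ≤ δ / 16 * S := by
      rw [abs_mul, abs_mul, abs_of_nonneg hκ, abs_of_pos hS]
      exact mul_le_mul_of_nonneg_right hκ2 hS.le
    linarith
  have hG1 := (abs_le.1 hGD).1
  have hG2 := (abs_le.1 hGD).2
  have hE : (1 + 1 / η) * E ≤ δ / 4 * S := by
    calc (1 + 1 / η) * E ≤ (1 + 1 / η) * (ε * S) := mul_le_mul_of_nonneg_left e1 h1η.le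
      _ = δ / 4 * S := by rw [← mul_assoc, hε4]
  have hκD : 0 ≤ κ * D := by positivity
  have hup : F ≤ (κ * D + δ) * S := by
    have h7 : (1 + η) * G ≤ (1 + η) * ((κ * D + δ / 8) * S) :=
      mul_le_mul_of_nonneg_left (by linarith) (by linarith)
    have h8 : (1 + η) * ((κ * D + δ / 8) * S) + δ / 4 * S ≤ (κ * D + δ) * S := by
      have h9 : (1 + η) * (κ * D + δ / 8) + δ / 4 ≤ κ * D + δ := by nlinarith
      nlinarith
    linarith
  have hlo : (κ * D - δ) * S ≤ F := by
    have h7 : η * F ≤ η * ((κ * D + δ) * S) := mul_le_mul_of_nonneg_left hup hη0.le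
    have h8 : η * ((κ * D + δ) * S) ≤ δ / 4 * S := by
      rw [← mul_assoc]
      exact mul_le_mul_of_nonneg_right hη2 hS.le
    nlinarith
  rw [abs_le]
  constructor <;> linarith

theorem p_lim (h0 : S_DDL) (h1 : S_TRAP) (h2 : S_CORE) (h3 : S_FIXA) : S_LIM := by
  intro b a ha
  obtain ⟨D, hD0, hD⟩ := h0 b a ha
  refine ⟨D, hD0, hD, ?_⟩
  rw [Metric.tendsto_nhds]
  intro δ' hδ'
  set δ : ℝ := δ' / 2 with hδd
  have hδ : 0 < δ := by positivity
  set ε : ℝ := min (1 / 4) (δ / (2 * (D + 1))) with hε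
  have hε0 : 0 < ε := lt_min (by norm_num) (by positivity)
  have hε1 : ε ≤ 1 / 4 := min_le_left _ _
  have hεD : ε * D ≤ δ / 2 := by
    calc ε * D ≤ (δ / (2 * (D + 1))) * (D + 1) :=
          mul_le_mul (min_le_right _ _) (by linarith) hD0 (by positivity)
      _ = δ / 2 := by field_simp
  obtain ⟨C, hC, hw⟩ := h1 ε hε0 hε1
  filter_upwards [eventually_ge_atTop (2 : ℝ),
    lim_key h2 h3 (κ := 1 + ε) ha hD0 hD hC (by linarith) (half_pos hδ),
    lim_key h2 h3 (κ := 1 - ε) ha hD0 hD hC (by linarith) (half_pos hδ)] with T hT hT1 hT2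
  have hT0 : 0 < T := by linarith
  have hS := TlogT_pos hT
  obtain ⟨⟨wp, hwp, hwp1⟩, ⟨wm, hwm, hwm1⟩⟩ := hw T (by linarith)
  have hf := fz_cont b ha hT0
  have a1 := abs_le.1 (hT1 wp hwp)
  have a2 := abs_le.1 (hT2 wm hwm)
  set S := T * Real.log T with hSdef
  have hfn : ∀ t, 0 ≤ Z2 t * fz b a t ^ 2 := fun t => mul_nonneg (Z2_nonneg t) (sq_nonneg _)
  have hsub : Set.uIcc T (2 * T) ⊆ Set.uIcc (T / 2) (3 * T) := by
    rw [Set.uIcc_of_le (by linarith), Set.uIcc_of_le (by linarith)]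
    exact Set.Icc_subset_Icc (by linarith) (by linarith)
  have hint : IntervalIntegrable (fun t => Z2 t * fz b a t ^ 2) volume T (2 * T) :=
    (Z2_cont.continuousOn.mul ((hf.mono hsub).pow 2)).intervalIntegrable
  have up : ∫ t in T..(2 * T), Z2 t * fz b a t ^ 2 ≤ IW wp T (fun t => fz b a t ^ 2) := by
    have c1 : ∫ t in T..(2 * T), Z2 t * fz b a t ^ 2 =
        ∫ t in T..(2 * T), wp t * Z2 t * fz b a t ^ 2 := by
      refine intervalIntegral.integral_congr fun t ht => ?_
      rw [Set.uIcc_of_le (by linarith)] at ht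
      rw [hwp1 t ht, one_mul]
    rw [c1]
    unfold IW
    refine intervalIntegral.integral_mono_interval (by linarith) (by linarith) (by linarith) ?_
      (int_w hwp.cont (hf.pow 2))
    exact Eventually.of_forall fun t =>
      mul_nonneg (mul_nonneg (hwp.nn t) (Z2_nonneg t)) (sq_nonneg _)
  have lo : IW wm T (fun t => fz b a t ^ 2) ≤ ∫ t in T..(2 * T), Z2 t * fz b a t ^ 2 := by
    unfold IW
    have hI := int_w hwm.cont (hf.pow 2)
    have i1 : IntervalIntegrable (fun t => wm t * Z2 t * fz b a t ^ 2) volume (T / 2) T :=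
      hI.mono_set (by
        rw [Set.uIcc_of_le (by linarith), Set.uIcc_of_le (by linarith)]
        exact Set.Icc_subset_Icc le_rfl (by linarith))
    have i2 : IntervalIntegrable (fun t => wm t * Z2 t * fz b a t ^ 2) volume T (2 * T) :=
      hI.mono_set hsub
    have i3 : IntervalIntegrable (fun t => wm t * Z2 t * fz b a t ^ 2) volume (2 * T) (3 * T) :=
      hI.mono_set (by
        rw [Set.uIcc_of_le (by linarith), Set.uIcc_of_le (by linarith)]
        exact Set.Icc_subset_Icc (by linarith) le_rfl)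
    rw [← intervalIntegral.integral_add_adjacent_intervals (i1.trans i2) i3,
      ← intervalIntegral.integral_add_adjacent_intervals i1 i2]
    have z1 : ∫ t in (T / 2)..T, wm t * Z2 t * fz b a t ^ 2 = 0 := by
      refine intervalIntegral.integral_zero_ae ?_
      have hne : ∀ᵐ x : ℝ, x ≠ T := compl_mem_ae_iff.2 (measure_singleton T)
      filter_upwards [hne] with x hx hx2
      rw [Set.uIoc_of_le (by linarith)] at hx2
      have : wm x = 0 := hwm1 x fun h => hx (le_antisymm hx2.2 h.1)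
      rw [this]
      ring
    have z3 : ∫ t in (2 * T)..(3 * T), wm t * Z2 t * fz b a t ^ 2 = 0 := by
      refine intervalIntegral.integral_zero_ae ?_
      refine Eventually.of_forall fun x hx2 => ?_
      rw [Set.uIoc_of_le (by linarith)] at hx2
      have : wm x = 0 := hwm1 x fun h => absurd hx2.1 (not_lt.2 h.2)
      rw [this]
      ring
    rw [z1, z3, zero_add, add_zero]
    refine intervalIntegral.integral_mono_on (by linarith) i2 hint ?_
    intro t _
    rw [mul_assoc]
    calc wm t * (Z2 t * fz b a t ^ 2) ≤ 1 * (Z2 t * fz b a t ^ 2) :=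
          mul_le_mul_of_nonneg_right (hwm.le1 t) (hfn t)
      _ = _ := one_mul _
  have hmain : |(∫ t in T..(2 * T), Z2 t * fz b a t ^ 2) - D * S| ≤ δ * S := by
    have b1 : ε * D * S ≤ δ / 2 * S := mul_le_mul_of_nonneg_right hεD hS.le
    rw [abs_le]
    constructor <;> nlinarith
  have hfin : ∫ t in T..(2 * T), Z2 t * (‖riemannZeta (1 + a * t * I)‖ ^ b) ^ 2 =
      ∫ t in T..(2 * T), Z2 t * fz b a t ^ 2 := rfl
  rw [hfin, Real.dist_eq]
  have h9 : (∫ t in T..(2 * T), Z2 t * fz b a t ^ 2) / S - D =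
      ((∫ t in T..(2 * T), Z2 t * fz b a t ^ 2) - D * S) / S := by
    field_simp
  rw [h9, abs_div, abs_of_pos hS, div_lt_iff₀ hS]
  calc _ ≤ δ * S := hmain
    _ < δ' * S := by
        apply mul_lt_mul_of_pos_right _ hS
        rw [hδd]
        linarith

end

end Pool.Agent.W2helper46.ZQ
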