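import Mathlib
import Pool.Agent.W2helper8.ZQ.Stm

/-!
Project ZQ (helper8), piece SUM: the sum over the pairs.
-/

set_option autoImplicit false

namespace Pool.Agent.W2helper46.ZQ

open Finset Filter Topology MeasureTheory Complex
open Pool.Agent.W2helper8.ZQ

noncomputable section

lemma gcd_inj {m n m' n' : ℕ} (hm : 0 < m) (hgg : Nat.gcd m n = Nat.gcd m' n')
    (h : m * n' = m' * n) : m = m' ∧ n = n' := by
  have hg : 0 < Nat.gcd m n := Nat.gcd_pos_of_pos_left _ hm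
  have h1 : Nat.gcd (m * n') (m * m') = m * Nat.gcd n' m' := Nat.gcd_mul_left _ _ _
  have h2 : Nat.gcd (m' * n) (m' * m) = m' * Nat.gcd n m := Nat.gcd_mul_left _ _ _
  rw [h, mul_comm m m'] at h1
  rw [h1, Nat.gcd_comm n' m', Nat.gcd_comm n m, ← hgg] at h2
  have h3 : m = m' := Nat.eq_of_mul_eq_mul_right hg h2
  subst h3
  exact ⟨rfl, (Nat.eq_of_mul_eq_mul_left hm h).symm⟩

lemma young {x y : ℝ} (hx : 0 < x) (hy : 0 < y) :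
    x ^ (-(7 / 8) : ℝ) * y ^ (-(1 / 2) : ℝ) ≤ x ^ (-(21 / 16) : ℝ) + y ^ (-(3 / 2) : ℝ) := by
  set u : ℝ := x ^ (-(7 / 16) : ℝ) with hu
  set v : ℝ := y ^ (-(1 / 2) : ℝ) with hv
  have hu0 : 0 < u := Real.rpow_pos_of_pos hx _
  have hv0 : 0 < v := Real.rpow_pos_of_pos hy _
  have e1 : x ^ (-(7 / 8) : ℝ) = u ^ 2 := by
    rw [hu, ← Real.rpow_mul_natCast hx.le]
    norm_num
  have e2 : x ^ (-(21 / 16) : ℝ) = u ^ 3 := by
    rw [hu, ← Real.rpow_mul_natCast hx.le]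
    norm_num
  have e3 : y ^ (-(3 / 2) : ℝ) = v ^ 3 := by
    rw [hv, ← Real.rpow_mul_natCast hy.le]
    norm_num
  rw [e1, e2, e3]
  rcases le_total u v with h | h
  · have : u ^ 2 * v ≤ v ^ 2 * v :=
      mul_le_mul_of_nonneg_right (pow_le_pow_left₀ hu0.le h 2) hv0.le
    have h3 : 0 < u ^ 3 := by positivity
    nlinarith
  · have : u ^ 2 * v ≤ u ^ 2 * u := mul_le_mul_of_nonneg_left h (by positivity)
    have h3 : 0 < v ^ 3 := by positivity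
    nlinarith

/-- the summable majorant -/
def mj (s : ℝ) (x : ℕ × (ℕ × ℕ)) : ℝ :=
  (x.1 : ℝ) ^ (-(7 / 4) : ℝ) * ((x.2.1 : ℝ) ^ s * (x.2.2 : ℝ) ^ s)

lemma mj_nonneg (s : ℝ) (x : ℕ × (ℕ × ℕ)) : 0 ≤ mj s x := by unfold mj; positivity

lemma mj_summable {s : ℝ} (hs : s < -1) : Summable (mj s) := by
  have h1 : Summable (fun n : ℕ => (n : ℝ) ^ s) := Real.summable_nat_rpow.2 hs
  have h2 : Summable (fun n : ℕ => (n : ℝ) ^ (-(7 / 4) : ℝ)) :=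
    Real.summable_nat_rpow.2 (by norm_num)
  have p1 : ∀ (r : ℝ) (n : ℕ), 0 ≤ (n : ℝ) ^ r := fun r n => by positivity
  have h3 : Summable (fun x : ℕ × ℕ => (x.1 : ℝ) ^ s * (x.2 : ℝ) ^ s) :=
    Summable.mul_of_nonneg (f := fun n : ℕ => (n : ℝ) ^ s) (g := fun n : ℕ => (n : ℝ) ^ s)
      h1 h1 (fun n => p1 s n) (fun n => p1 s n)
  exact Summable.mul_of_nonneg (f := fun n : ℕ => (n : ℝ) ^ (-(7 / 4) : ℝ))
    (g := fun x : ℕ × ℕ => (x.1 : ℝ) ^ s * (x.2 : ℝ) ^ s)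
    h2 h3 (fun n => p1 _ n) (fun n => mul_nonneg (p1 _ _) (p1 _ _))

lemma sum_inj {S : Finset (ℕ × ℕ)} {s : ℝ} (hs : s < -1) (φ : ℕ × ℕ → ℕ × (ℕ × ℕ))
    (hφ : Set.InjOn φ S) : ∑ p ∈ S, mj s (φ p) ≤ ∑' x, mj s x := by
  classical
  rw [← Finset.sum_image (f := mj s) hφ]
  exact (mj_summable hs).sum_le_tsum _ fun x _ => mj_nonneg s x

lemma term_le {N m n h k : ℕ} (hN : 1 ≤ N) (hm : N ≤ m) (hn : N ≤ n) (hh : 1 ≤ h) (hk : 1 ≤ k) :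
    ((m : ℝ) * n) ^ (-(15 / 16) : ℝ) * ((h : ℝ) * k) ^ (-(1 / 2) : ℝ) ≤
      (N : ℝ) ^ (-(1 / 8) : ℝ) * (mj (-(21 / 16)) (Nat.gcd m n, m / Nat.gcd m n, n / Nat.gcd m n) +
        mj (-(3 / 2)) (Nat.gcd m n, h, k)) := by
  have hm0 : 0 < m := by omega
  have hn0 : 0 < n := by omega
  set g := Nat.gcd m n with hg
  have hg0 : 0 < g := Nat.gcd_pos_of_pos_left _ hm0
  set i := m / g with hi
  set j := n / g with hj
  have hmi : m = g * i := (Nat.mul_div_cancel' (Nat.gcd_dvd_left m n)).symm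
  have hnj : n = g * j := (Nat.mul_div_cancel' (Nat.gcd_dvd_right m n)).symm
  have hi0 : 0 < i := by
    rcases Nat.eq_zero_or_pos i with h0 | h0
    · rw [h0, mul_zero] at hmi; omega
    · exact h0
  have hj0 : 0 < j := by
    rcases Nat.eq_zero_or_pos j with h0 | h0
    · rw [h0, mul_zero] at hnj; omega
    · exact h0
  have hmR : (0 : ℝ) < m := by exact_mod_cast hm0
  have hnR : (0 : ℝ) < n := by exact_mod_cast hn0
  have hgR : (0 : ℝ) < g := by exact_mod_cast hg0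
  have hiR : (0 : ℝ) < i := by exact_mod_cast hi0
  have hjR : (0 : ℝ) < j := by exact_mod_cast hj0
  have hhR : (0 : ℝ) < h := by exact_mod_cast hh
  have hkR : (0 : ℝ) < k := by exact_mod_cast hk
  have hNR : (0 : ℝ) < N := by exact_mod_cast hN
  have hNm : (N : ℝ) ≤ m := by exact_mod_cast hm
  have hNn : (N : ℝ) ≤ n := by exact_mod_cast hn
  have e1 : ((m : ℝ) * n) ^ (-(15 / 16) : ℝ) =
      ((m : ℝ) * n) ^ (-(1 / 16) : ℝ) * ((m : ℝ) * n) ^ (-(7 / 8) : ℝ) := by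
    rw [← Real.rpow_add (by positivity)]
    norm_num
  have e2 : ((m : ℝ) * n) ^ (-(1 / 16) : ℝ) ≤ (N : ℝ) ^ (-(1 / 8) : ℝ) := by
    have h1 : (N : ℝ) ^ (-(1 / 8) : ℝ) = ((N : ℝ) * N) ^ (-(1 / 16) : ℝ) := by
      rw [Real.mul_rpow hNR.le hNR.le, ← Real.rpow_add hNR]
      norm_num
    rw [h1]
    exact Real.rpow_le_rpow_of_nonpos (by positivity) (mul_le_mul hNm hNn hNR.le hmR.le)
      (by norm_num)
  have e3 : ((m : ℝ) * n) ^ (-(7 / 8) : ℝ) =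
      (g : ℝ) ^ (-(7 / 4) : ℝ) * ((i : ℝ) * j) ^ (-(7 / 8) : ℝ) := by
    have h1 : ((m : ℝ) * n) = ((g : ℝ) * g) * ((i : ℝ) * j) := by
      rw [hmi, hnj]
      push_cast
      ring
    have h2 : (g : ℝ) ^ (-(7 / 4) : ℝ) = ((g : ℝ) * g) ^ (-(7 / 8) : ℝ) := by
      rw [Real.mul_rpow hgR.le hgR.le, ← Real.rpow_add hgR]
      norm_num
    rw [h1, h2, Real.mul_rpow (by positivity) (by positivity)]
  have e4 : mj (-(21 / 16)) (g, i, j) + mj (-(3 / 2)) (g, h, k) =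
      (g : ℝ) ^ (-(7 / 4) : ℝ) * (((i : ℝ) * j) ^ (-(21 / 16) : ℝ) + ((h : ℝ) * k) ^ (-(3 / 2) : ℝ)) := by
    unfold mj
    simp only
    rw [Real.mul_rpow hiR.le hjR.le, Real.mul_rpow hhR.le hkR.le]
    ring
  rw [e1, e3, e4]
  have hgp : 0 < (g : ℝ) ^ (-(7 / 4) : ℝ) := Real.rpow_pos_of_pos hgR _
  have hNp : 0 < (N : ℝ) ^ (-(1 / 8) : ℝ) := Real.rpow_pos_of_pos hNR _
  have hy := young (mul_pos hiR hjR) (mul_pos hhR hkR)
  have hp : 0 < ((i : ℝ) * j) ^ (-(7 / 8) : ℝ) := Real.rpow_pos_of_pos (mul_pos hiR hjR) _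
  have hq : 0 < ((h : ℝ) * k) ^ (-(1 / 2) : ℝ) := Real.rpow_pos_of_pos (mul_pos hhR hkR) _
  calc ((m : ℝ) * n) ^ (-(1 / 16) : ℝ) *
        ((g : ℝ) ^ (-(7 / 4) : ℝ) * ((i : ℝ) * j) ^ (-(7 / 8) : ℝ)) *
        ((h : ℝ) * k) ^ (-(1 / 2) : ℝ)
      = ((m : ℝ) * n) ^ (-(1 / 16) : ℝ) * ((g : ℝ) ^ (-(7 / 4) : ℝ) *
        (((i : ℝ) * j) ^ (-(7 / 8) : ℝ) * ((h : ℝ) * k) ^ (-(1 / 2) : ℝ))) := by ring
    _ ≤ (N : ℝ) ^ (-(1 / 8) : ℝ) * ((g : ℝ) ^ (-(7 / 4) : ℝ) *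
        (((i : ℝ) * j) ^ (-(7 / 8) : ℝ) * ((h : ℝ) * k) ^ (-(1 / 2) : ℝ))) :=
        mul_le_mul_of_nonneg_right e2 (by positivity)
    _ ≤ _ := mul_le_mul_of_nonneg_left (mul_le_mul_of_nonneg_left hy hgp.le) hNp.le

theorem p_sum : S_SUM := by
  refine ⟨(∑' x, mj (-(21 / 16)) x) + (∑' x, mj (-(3 / 2)) x) + 1, ?_, ?_⟩
  · have h1 : 0 ≤ ∑' x, mj (-(21 / 16)) x := tsum_nonneg fun x => mj_nonneg _ x
    have h2 : 0 ≤ ∑' x, mj (-(3 / 2)) x := tsum_nonneg fun x => mj_nonneg _ x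
    linarith
  intro N S f hN hS hf
  have hNR : (0 : ℝ) < N := by exact_mod_cast hN
  have hNp : 0 < (N : ℝ) ^ (-(1 / 8) : ℝ) := Real.rpow_pos_of_pos hNR _
  have e1 : ∑ p ∈ S, ((p.1 : ℝ) * p.2) ^ (-(15 / 16) : ℝ) *
        (((f p).1 : ℝ) * (f p).2) ^ (-(1 / 2) : ℝ) ≤
      ∑ p ∈ S, (N : ℝ) ^ (-(1 / 8) : ℝ) * (mj (-(21 / 16)) (Nat.gcd p.1 p.2, p.1 / Nat.gcd p.1 p.2,
        p.2 / Nat.gcd p.1 p.2) + mj (-(3 / 2)) (Nat.gcd p.1 p.2, (f p).1, (f p).2)) := by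
    refine Finset.sum_le_sum fun p hp => ?_
    obtain ⟨h1, h2, h3, h4⟩ := hS p hp
    exact term_le hN h1 h2 h3 h4
  rw [← Finset.mul_sum, Finset.sum_add_distrib] at e1
  have i1 : ∑ p ∈ S, mj (-(21 / 16)) (Nat.gcd p.1 p.2, p.1 / Nat.gcd p.1 p.2,
      p.2 / Nat.gcd p.1 p.2) ≤ ∑' x, mj (-(21 / 16)) x := by
    refine sum_inj (by norm_num) (fun p => (Nat.gcd p.1 p.2, p.1 / Nat.gcd p.1 p.2,
      p.2 / Nat.gcd p.1 p.2)) ?_
    intro p _ q _ hpq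
    simp only [Prod.mk.injEq] at hpq
    obtain ⟨h1, h2, h3⟩ := hpq
    have a1 : p.1 = Nat.gcd p.1 p.2 * (p.1 / Nat.gcd p.1 p.2) :=
      (Nat.mul_div_cancel' (Nat.gcd_dvd_left _ _)).symm
    have a2 : p.2 = Nat.gcd p.1 p.2 * (p.2 / Nat.gcd p.1 p.2) :=
      (Nat.mul_div_cancel' (Nat.gcd_dvd_right _ _)).symm
    have b1 : q.1 = Nat.gcd q.1 q.2 * (q.1 / Nat.gcd q.1 q.2) :=
      (Nat.mul_div_cancel' (Nat.gcd_dvd_left _ _)).symm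
    have b2 : q.2 = Nat.gcd q.1 q.2 * (q.2 / Nat.gcd q.1 q.2) :=
      (Nat.mul_div_cancel' (Nat.gcd_dvd_right _ _)).symm
    refine Prod.ext ?_ ?_
    · rw [a1, b1, h1, ← h1, h2, h1]
    · rw [a2, b2, h1, ← h1, h3, h1]
  have i2 : ∑ p ∈ S, mj (-(3 / 2)) (Nat.gcd p.1 p.2, (f p).1, (f p).2) ≤
      ∑' x, mj (-(3 / 2)) x := by
    refine sum_inj (by norm_num) (fun p => (Nat.gcd p.1 p.2, (f p).1, (f p).2)) ?_
    intro p hp q hq hpq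
    simp only [Prod.mk.injEq] at hpq
    obtain ⟨h1, h2, h3⟩ := hpq
    have h4 : f p = f q := Prod.ext h2 h3
    have h5 := hf p hp q hq h4
    have hp0 : 0 < p.1 := by
      have := (hS p hp).1
      omega
    obtain ⟨h6, h7⟩ := gcd_inj hp0 h1 h5
    exact Prod.ext h6 h7
  refine e1.trans ?_
  rw [mul_comm]
  refine mul_le_mul_of_nonneg_right ?_ hNp.le
  linarith

end

end Pool.Agent.W2helper46.ZQ
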